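import Pool.Agent.Lib.MP_afdd4d_co.K10.TH.T00
import Pool.Agent.Lib.MP_afdd4d_co.K10.TH.T01
import Pool.Agent.Lib.MP_afdd4d_co.K10.TH.T02
import Pool.Agent.Lib.MP_afdd4d_co.K10.TH.T03
import Pool.Agent.Lib.MP_afdd4d_co.K10.TH.T04
import Pool.Agent.Lib.MP_afdd4d_co.K10.TH.T05
import Pool.Agent.Lib.MP_afdd4d_co.K10.TH.T06
import Pool.Agent.Lib.MP_afdd4d_co.K10.TH.T07
import Pool.Agent.Lib.MP_afdd4d_co.K10.TH.T08
import Pool.Agent.Lib.MP_afdd4d_co.K10.TH.T09
import Pool.Agent.Lib.MP_afdd4d_co.K10.TH.T10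
import Pool.Agent.Lib.MP_afdd4d_co.K10.TH.T11
import Pool.Agent.Lib.MP_afdd4d_co.K10.TH.T12
import Pool.Agent.Lib.MP_afdd4d_co.K10.TH.T13
import Pool.Agent.Lib.MP_afdd4d_co.K10.TH.T14
import Pool.Agent.Lib.MP_afdd4d_co.K10.TH.T15

/-!
# The tables of the function of the links
-/

namespace Pool.Agent.Lib.MP_afdd4d_co.K10.TH

open K8 K8.L9

/-- The trees for the top bits `t`. -/
noncomputable def TT (t : ℕ) : TN := ([t0, t1, t2, t3, t4, t5, t6, t7, t8, t9, t10, t11, t12, t13,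
  t14, t15] : List TN).getD t (.l 0)

theorem TT_ok (t : ℕ) (ht : t < 16) : tnC (bvR 64 VK t) (TT t) 9 0 = true := by
  interval_cases t
  · exact ok0
  · exact ok1
  · exact ok2
  · exact ok3
  · exact ok4
  · exact ok5
  · exact ok6
  · exact ok7
  · exact ok8
  · exact ok9
  · exact ok10
  · exact ok11
  · exact ok12
  · exact ok13
  · exact ok14
  · exact ok15

/-- The data. -/
noncomputable def D : ThD where
  toThB := D0
  TT := TT
  hBT := by decide
  hT := TT_ok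

end Pool.Agent.Lib.MP_afdd4d_co.K10.TH
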